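import Mathlib
import Pool.Agent.J4H9.HGStm
import Pool.Agent.N178.MU.MB

/-!
# Murre's conjecture (B) for products of liftings of almost all isogeny classes over finite fields

Let `𝒢` be the set of all pairs `(q, f)` such that each complex abelian variety `Y` without complex
multiplication which is a lifting of the isogeny class over the field with `q` elements with the
characteristic polynomial `f` of Frobenius (`IsLifting`: `Y` has a model over a finitely generated
field with good reduction of this class at one place) has only endomorphisms with real eigenvalues,
and the largest possible Hodge group, the Lefschetz group (`Pool.Agent.J4H9.HG.fullSet`).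

We show that almost all isogeny classes, in each Newton stratum of height at most `(1 / 2 - μ) g` and
over each sufficiently large finite field, are in `𝒢` (`AlmostAll 𝒢`): the exceptions are at most
`D 2 ^ #E 8 ^ g q ^ (- (μ / 4 - ε) g)` times the number of elements, for each subset `S` of the stratum
which contains at least `1 / D` of its elements. If `q > 2 ^ (12 / μ)` is fixed and the dimension `g`
tends to infinity then the proportion of the exceptions tends to zero exponentially; the slopes
`lam i = 0` give all abelian varieties over the field with `q` elements.

Let `X` be a complex abelian variety each of whose simple factors is without complex multiplication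
and a lifting of an isogeny class in `𝒢`, or a factor of an abelian variety of dimension at most
three (`HasFactorsIn 𝒢 X`). The pairs `(q, f)` may be different for the different factors, and all
powers and products are included. Let `M = (X, p)` be a direct summand of the Chow motive of `X` with
`h^(s, t)(M) = 0` if `s > d` or `t > d`, for example `M = h(V)`, where `V` is a smooth projective
variety of dimension `d` which is the image of `X`, or the image of a product of curves of positive
genus such that the product of their Jacobians is `X`. Let `M = ⊕ M_m`, `M_m = (X, P m)`, be **any**
Chow–Künneth decomposition (`M_m` has the homology of `M` in degree `m`; if `M = h(V)` then `M_m` is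
`h^(2 d - m)(V)`, and the cycles of dimension `i` are the cycles of codimension `d - i`).

The theorem: there are no cycles of dimension `i` on `M_m` for `m > d + i`; if the Hodge level of `M`
is at most four, there are no cycles of dimension `i` on `M_m` for `m < 2 i`. For `M = h(V)` this is
Murre's conjecture (B), for all Chow–Künneth decompositions.

The structures `ChowTheory` (`Pool.Agent.N178.BL.Defs`) and `Projectors` (`Pool.Agent.N178.MU.Defs`)
collect the known properties of the Chow groups of complex abelian varieties which are used, and the
structure `GaloisData` the known properties of the Galois representation of an abelian variety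
(Faltings, Deligne); the traces in `IsLifting` are rational since they are traces of endomorphisms of
the reduction.

The proof: by the counting part of `MP_021685_ag/NewtonStrata` the Mumford-Tate conjecture and the
fact that the Hodge ring of all powers is generated by divisor classes are known for almost all
liftings. Here it is shown that an endomorphism of the lifting, which is given by an equivariant
function on the Weil numbers, has real eigenvalues or generates a field of complex multiplication,
and that the Lie algebra of the Hodge group is the Lefschetz Lie algebra (`HGFull`: the Casimir
element of the Hodge Lie algebra is a Hodge class of degree four). By the theorem of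
`MP_90e98f_ag/PowersAndCMFields` this implies the generalized Hodge conjecture for `X`, and the
conclusion on the Chow groups follows as in `MP_d6e134_ag/HodgeLevelFour`.
-/

set_option autoImplicit false

namespace Pool.Agent.Results.MP_d6e134_ag.AlmostAllLiftings

open Module Polynomial Pool.Agent.Y90 Pool.Agent.R915 Pool.Agent.J4H9.HG
open Pool.Agent.N178.BL (ChowTheory)
open Pool.Agent.N178.MU (Projectors IsChowKunneth HodgeZero)

/-- **Murre's conjecture (B)** for direct summands `M = (X, p)` of the Chow motives of the abelian
varieties `X` which are built from liftings of isogeny classes in a set `𝒢` which contains almost all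
isogeny classes, for every Chow–Künneth decomposition: `CH_i(M_m) = 0` for `m > d + i`, and for
`m < 2 i` if the Hodge level is at most four. The cycles on `X` are the correspondences from the point
`O` to `X`. -/
theorem result : ∃ 𝒢 : Set (ℕ × ℤ[X]), AlmostAll 𝒢 ∧
    ∀ (C : ChowTheory) (_ : Projectors C) (X : AV), HasFactorsIn 𝒢 X → ∀ p : C.Co X X,
      C.IsMotive p → ∀ d : ℕ, (∀ s t : ℕ, d < s ∨ d < t → HodgeZero p s t) →
      ∀ P : ℕ → C.Co X X, IsChowKunneth p P → ∀ O : AV, finrank ℚ O.H = 0 →
        (∀ (i : ℤ) (m : ℕ) (z : C.Co O X), C.IsDeg i z → d + i < m → C.o (P m) z = 0) ∧
        ((∀ s t : ℕ, 5 ≤ |(s : ℤ) - t| → HodgeZero p s t) →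
          ∀ (i : ℤ) (m : ℕ) (z : C.Co O X), C.IsDeg i z → m < 2 * i → C.o (P m) z = 0) :=
  ⟨fullSet, almostAll_fullSet, fun C K _ hX _ _ _ hd _ hP _ hO =>
    ⟨fun _ _ _ hz hm => Pool.Agent.N178.MU.murreB1 K (ghc_liftings C.alg hX) hO hP hd hz hm,
      fun hL _ _ _ hz hm => Pool.Agent.N178.MU.murreB0 K (ghc_liftings C.alg hX) hO hP hL hz hm⟩⟩

end Pool.Agent.Results.MP_d6e134_ag.AlmostAllLiftings
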