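import Pool.Agent.J4H14.MB.B

/-!
# Murre's conjecture (B) for finite-dimensional motives of geometric level at most four

`C` is the theory of Chow groups with rational coefficients of the smooth projective varieties over
a field, `H` is a Weil cohomology theory with its cycle class map (`TheoryData`, `WeilTheoryData` in
`Pool.Agent.W492.BB.Data`, with the formal properties `IsChowProj`, `IsWeilProj` of
`Pool.Agent.TH133.Axioms`, known in all cases).

`X` is a variety of any dimension such that

* the homologically trivial correspondences of degree zero from `X` to `X` are nilpotent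
  (`IsNilpotent`; this is so if the motive of `X` is finite-dimensional in the sense of Kimura and
  O'Sullivan, in particular if `X` is dominated by a product of curves);
* the Lefschetz standard conjecture is true for `X` (`LefschetzStandard`).

The theorem: for **every** Chow-Kunneth decomposition of `X` (`MurreB0`, `MurreB1` of
`Pool.Agent.TH133.Axioms`), `F^(j + 1) CH^j(X) = 0` for all `j`; and `F^0 CH^j(X) = CH^j(X)` for all
`j`, if the cohomology of `X` has geometric level at most four, that is if `H^i(X)` has geometric
coniveau at least `(i - 4) / 2` for `5 ≤ i ≤ dim X` (`LevelAtMostFour`; no condition if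
`dim X ≤ 4`).

The vanishing `PicardFaithful H` is known for the classical Weil cohomology theories: a
correspondence of degree zero which kills `H^1` kills the homologically trivial divisor classes (up
to torsion), since it kills the Picard variety.

The proof. Let `π = π_i` and let `γ = Σ β_a α_a` be the identity on `H^i(X)`, where `α_a` and
`β_a` factor through `CH^(j - s_a)(Y_a)`, `s_a ≥ j - 1`, so that only divisors or cycles of
codimension at most zero occur. Then `ν = π - π γ π` is homologically trivial, hence nilpotent. For
`w` in `π CH^j(X)`, `α_a π β_b` acts as zero on the homologically trivial divisor classes, and so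
`α_a ν w = α_a w`; by nilpotence `α_a w = 0` for all `a`, so that `ν w = w` and `w = 0`.
-/

set_option autoImplicit false

open CategoryTheory AlgebraicGeometry

universe u v w

namespace Pool.Agent.Results.MP_d6e134_ag.GeometricLevelFour

open Pool.Agent.H914 Pool.Agent.H914.VarClass Pool.Agent.H914.VarClass.Obj Pool.Agent.W492.BB
  Pool.Agent.TH133 Pool.Agent.Q73.LS Pool.Agent.J4H14.MB

/-- The geometric level of the cohomology of `X` is at most four: the geometric coniveau of `H^i(X)`
is at least `(i - 4) / 2` for `i ≤ dim X`. (This is no condition for `i ≤ 4`.) -/
def LevelAtMostFour {k : Type u} [Field k] {𝒱 : VarClass k} {C : TheoryData.{u, v, 0} 𝒱 ℚ}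
    {K : Type w} [Field K] (H : WeilTheoryData.{u, v, w} C K) (X : 𝒱.Obj) : Prop :=
  ∀ i : ℕ, 5 ≤ i → i ≤ X.dim → ∃ c : ℕ, i ≤ 2 * c + 4 ∧ ConiveauAtLeast H X i c

/-- **Murre's conjecture (B)** for every Chow-Kunneth decomposition of a variety `X` with
nilpotent homologically trivial correspondences, the Lefschetz standard conjecture, and geometric
level at most four; the second half `F^(j + 1) CH^j(X) = 0` without a condition on the level. -/
theorem result {k : Type u} [Field k] {𝒱 : VarClass k} (C : TheoryData.{u, v, 0} 𝒱 ℚ)
    [IsChowProj C] {K : Type w} [Field K] (H : WeilTheoryData.{u, v, w} C K) [IsWeilProj H]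
    (hP : PicardFaithful H) (X : 𝒱.Obj) (hN : IsNilpotent H X) (hL : LefschetzStandard H X) :
    MurreB1 H X ∧ (LevelAtMostFour H X → MurreB0 H X) :=
  ⟨murreB1_of hN hL, murreB0_of hP hN hL⟩

end Pool.Agent.Results.MP_d6e134_ag.GeometricLevelFour
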