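import Pool.Agent.J4H14.MU.E

/-!
# Murre's conjecture (B) for all Chow-Kunneth decompositions and Kimura finite-dimensionality

`C` is the theory of Chow groups with rational coefficients of the smooth projective varieties in a
class `𝒱` which is closed under products (all varieties, or the powers of one variety), `H` is a Weil
cohomology theory with its cycle class map (`TheoryData`, `WeilTheoryData`, with the formal
properties `IsChowProj`, `IsWeilProj`, `GradedCommutative`, known in all cases).

Question Q1 for the members of `𝒱` is the conjunction of two statements:
(B0) `F^0 CH^i(X) = CH^i(X)` for all `X`, all `i` and ALL Chow-Kunneth decompositions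
(`AllDecompositions H (FirstHalf C)`);
(B1) `F^(i+1) CH^i(X) = 0` for all `X`, all `i` and ALL Chow-Kunneth decompositions
(`AllDecompositions H (SecondHalf C)`).
Murre's conjecture (C) is the independence of the filtration `F` of the decomposition (`MurreC`), and
(D) says that `F^1 CH^i(X)` is the group of homologically trivial cycles, for all `X`, `i` and all
Chow-Kunneth decompositions (`AllDecompositions H (ConjD H)`). The conjecture of Kimura and O'Sullivan says that all Chow
motives are finite-dimensional (`FiniteDimensional`). The theorem:

1. (One variety.) Let `X` have a Chow-Kunneth decomposition, let `m` be at least the dimensions of the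
   even and of the odd part of `H(X)`, and put `P = X^(m+1)`. If one of the two halves of (B) holds
   for all Chow-Kunneth decompositions of `P × P = X^(2m+2)` in the single codimension `dim P`, then
   the Chow motive of `X` is finite-dimensional.
2. (B0) is equivalent to: each `X` in `𝒱` with a Chow-Kunneth decomposition is finite-dimensional, and
   ONE of its decompositions satisfies `F^0 CH^i(X) = CH^i(X)` for all `i`.
3. The same for (B1), with `F^(i+1) CH^i(X) = 0`.
4. The same for (D); and (D) implies (B0).
5. If the Lefschetz standard conjecture holds for the members of `𝒱` with a Chow-Kunneth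
   decomposition, then (B1) is equivalent to the finite-dimensionality of all these members; and the
   following are equivalent: Q1 for `𝒱`; (B0); (C); all these members are finite-dimensional, and one
   decomposition of each satisfies `F^0 CH^i(X) = CH^i(X)` for all `i`.
6. If the Lefschetz standard conjecture holds for all members of `𝒱`, then the conjecture of Kimura
   and O'Sullivan for `𝒱` is equivalent to: all members of `𝒱` have Chow-Kunneth decompositions
   (Murre's conjecture (A)), and (B1).

So modulo the Lefschetz standard conjecture (D) implies Q1, Q1 is equivalent to its first half and to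
(C), its second half is the conjecture of Kimura and O'Sullivan, and the first half implies the
second. Without the Lefschetz standard conjecture, Q1 is equivalent to finite-dimensionality together
with (B) for one decomposition of each variety.

The proof. Let `e` be the sum of the `π_i` with even `i`, and `n = m + 1 > dim H^even(X)`. The
antisymmetrization `D` of `e^(⊗ n)` on `P = X^n` is homologically trivial, and up to a factor it is
an idempotent. It commutes with the product decomposition `ρ` of `P`, since the latter is invariant
under permutations of the factors: `∑ 2^i ρ_i` is the `n`-th power of `∑ 2^i π_i` (`epow_wsum`,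
`commute_of_sum`, `gd_comm`). So `D` is a sum of homologically trivial idempotents `ε` contained in
the `ρ_i` (`eq_zero_of_comm`). Then `ε^t × ε` is a homologically trivial idempotent contained in the
member of degree `2 dim P` of the product decomposition of `P × P` (`sub_sq`), and it can be moved to
the member of degree `0` or of degree `4 dim P`: this is another Chow-Kunneth decomposition of
`P × P`. By one half of (B) in codimension `dim P`, `ε^t × ε` acts as zero on
`ε ∈ CH^(dim P)(P × P)`, that is, `ε = ε ∘ ε ∘ ε = 0` (`eq_zero_of_sub`). Conversely, for a
finite-dimensional motive the homologically trivial endomorphisms are nilpotent (Kimura), so the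
vanishing of `π_j` on `CH^i(X)` does not depend on the decomposition (`act_zero_transfer'`); the
Lefschetz standard conjecture gives `F^(i+1) CH^i(X) = 0` (`murreB1_of`) and the algebraicity of the
Kunneth projectors, which can be lifted to a Chow-Kunneth decomposition (`hasCK_of_nilpotent`).
-/

set_option autoImplicit false

open CategoryTheory AlgebraicGeometry

universe u v w

namespace Pool.Agent.Results.MP_d6e134_ag.KimuraFiniteness

open Pool.Agent.H914 Pool.Agent.H914.VarClass Pool.Agent.H914.VarClass.Obj Pool.Agent.W492.BB
  Pool.Agent.TH133 Pool.Agent.Y110 Pool.Agent.J4H14.MU

/-- **Murre's conjecture (B) for all Chow-Kunneth decompositions and Kimura finite-dimensionality.** -/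
theorem result {k : Type u} [Field k] {𝒱 : VarClass k} (C : TheoryData.{u, v, 0} 𝒱 ℚ)
    [IsChowProj C] {K : Type w} [Field K] (H : WeilTheoryData.{u, v, w} C K) [IsWeilProj H]
    (hg : GradedCommutative H) :
    (∀ (X : 𝒱.Obj) (m : ℕ), HasCK H X → BettiAtMost H X m → HalfOfB H (power X m) →
      FiniteDimensional C X) ∧
    (AllDecompositions H (FirstHalf C) ↔ FiniteAndOne H (FirstHalf C)) ∧
    (AllDecompositions H (SecondHalf C) ↔ FiniteAndOne H (SecondHalf C)) ∧
    (AllDecompositions H (ConjD H) ↔ FiniteAndOne H (ConjD H)) ∧
    (AllDecompositions H (ConjD H) → AllDecompositions H (FirstHalf C)) ∧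
    ((∀ X : 𝒱.Obj, HasCK H X → Lefschetz H X) →
      (AllDecompositions H (SecondHalf C) ↔ ∀ X : 𝒱.Obj, HasCK H X → FiniteDimensional C X) ∧
      [AllDecompositions H (FirstHalf C) ∧ AllDecompositions H (SecondHalf C),
        AllDecompositions H (FirstHalf C), ∀ X : 𝒱.Obj, MurreC H X,
        FiniteAndOne H (FirstHalf C)].TFAE) ∧
    ((∀ X : 𝒱.Obj, Lefschetz H X) →
      ((∀ X : 𝒱.Obj, HasCK H X) ∧ AllDecompositions H (SecondHalf C) ↔
        ∀ X : 𝒱.Obj, FiniteDimensional C X)) :=
  ⟨fun _ _ hX hm hB => finite_of_half hg hX hm hB, firstHalf_all hg, secondHalf_all hg,
    conjD_all hg, firstHalf_of_D, fun hL => ⟨secondHalf_iff_finite hg hL, tfae_all hg hL⟩,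
    fun hL => hasCK_and_secondHalf_iff_finite hg hL⟩

end Pool.Agent.Results.MP_d6e134_ag.KimuraFiniteness
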