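import Pool.Agent.J4H14.MB.F

/-!
# Murre's conjecture (B) for all Chow-Kunneth decompositions of a surface

`C` is the theory of Chow groups with rational coefficients of the smooth projective varieties over
a field, `H` is a Weil cohomology theory with its cycle class map (`TheoryData`, `WeilTheoryData`,
with the formal properties `IsChowProj`, `IsWeilProj`, known in all cases). `PicardFaithful H` is
the classical fact that correspondences of degree zero which kill `H^1` kill the homologically
trivial divisor classes.

Let `X` be a surface and `π` a Chow-Kunneth decomposition of `X` such that the Chow motives `h^0`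
and `h^4(2)`, and `h^1` and `h^3(1)`, are isomorphic (`HasLefschetzIso`). Such a decomposition was
constructed by Murre for every surface. The theorem is about **all other** Chow-Kunneth
decompositions of `X`. The following are equivalent:

* Murre's conjecture (B) for all Chow-Kunneth decompositions of `X` (this is question Q1 for `X`);
* Murre's conjecture (C): the filtration is independent of the decomposition;
* Murre's conjecture (D) for all Chow-Kunneth decompositions of `X`;
* the homologically trivial idempotents in `CH^2(X × X)` act as zero on `CH^2(X)`.

If moreover `H^2(X)` is spanned by algebraic classes (for complex surfaces this is the condition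
`p_g = 0`), they are equivalent to `F^2 CH^2(X) = 0` for the given decomposition `π`. For Murre's
decomposition `F^2 CH^2(X)` is the Albanese kernel, so this is Bloch's conjecture for `X`.

The proof. Let `P` be the given decomposition. Correspondences of degree zero do not raise the
weights: `P_b γ P_a = 0` for `a < b` (`tri_of_surface`), since by the isomorphisms
`h^n ≅ h^(4-n)(2-n)`, `n ≤ 1`, the correspondence `P_b γ P_a` can be replaced by a component of a
correspondence in `CH^j(X × X)`, `j ≤ 1`. If `Q` is another decomposition then its partial sums
`q = Q_0 + ⋯ + Q_(t-1)` are idempotents whose diagonal components `P_a q P_a`, `a ≥ t`, and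
`P_a (1 - q) P_a`, `a < t`, are homologically trivial idempotents. If these act as zero on the Chow
groups, the filtrations of `P` and `Q` coincide (`ckFil_eq`). Conversely a homologically trivial
idempotent can be reduced to one contained in some `P_a` and then moved to another `P_b`
(`isCK_mv`), which violates (B), (C), (D) if it does not act as zero.
-/

set_option autoImplicit false

open CategoryTheory AlgebraicGeometry

universe u v w

namespace Pool.Agent.Results.MP_d6e134_ag.SurfacesAllDecompositions

open Pool.Agent.H914 Pool.Agent.H914.VarClass Pool.Agent.H914.VarClass.Obj Pool.Agent.W492.BB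
  Pool.Agent.TH133 Pool.Agent.Q73.LS Pool.Agent.J4H14.MB

/-- **Murre's conjecture (B)** for all Chow-Kunneth decompositions of a surface `X` is equivalent to
(C), to (D), and to the vanishing of the homologically trivial idempotents on zero-cycles; if
`H^2(X)` is algebraic it is equivalent to Bloch's conjecture `F^2 CH^2(X) = 0`. -/
theorem result {k : Type u} [Field k] {𝒱 : VarClass k} (C : TheoryData.{u, v, 0} 𝒱 ℚ)
    [IsChowProj C] {K : Type w} [Field K] (H : WeilTheoryData.{u, v, w} C K) [IsWeilProj H]
    (hP : PicardFaithful H) (X : 𝒱.Obj) (hX : X.dim = 2) (π : ℕ → C.A (X.prod X))
    (hπ : IsCK H X π) (hL : HasLefschetzIso C π) :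
    [MurreB0 H X ∧ MurreB1 H X, MurreC H X, MurreD H X, NoPhantomsOn H X 2].TFAE ∧
      (AlgebraicH2 H X → (MurreB0 H X ∧ MurreB1 H X ↔ ckFil C π 2 2 = ⊥)) := by
  have h1 := tfae_surface (P := π) hP hX hπ hL
  exact ⟨h1, fun hA => (h1.out 0 3).trans (noPhantoms_iff (P := π) hP hX hπ hL hA)⟩

end Pool.Agent.Results.MP_d6e134_ag.SurfacesAllDecompositions
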